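import Pool.Agent.Helper15.BB.St

/-! Project BB, module D: the nested case. -/

namespace Pool.Agent.Helper96.BB

open Pool.Agent.Helper22.FL Pool.Agent.Helper22.CS
open Pool.Agent.Helper15.BB

/-- a sorted list all of whose members are `s`, `t` or strictly between -/
lemma split_sorted {m : ℕ} (ps : List (Fin m)) (h : ps.Pairwise (· ≤ ·)) (s t : Fin m)
    (hst : s < t) (hall : ∀ u ∈ ps, u = s ∨ u = t ∨ (s < u ∧ u < t)) :
    ps = List.replicate (ps.count s) s ++ ps.filter (fun u => decide (s < u ∧ u < t)) ++
      List.replicate (ps.count t) t := by
  refine List.Perm.eq_of_pairwise (le := (· ≤ ·)) (fun a b _ _ h1 h2 => le_antisymm h1 h2) h ?_ ?_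
  · rw [List.pairwise_append, List.pairwise_append]
    refine ⟨⟨?_, h.filter _, ?_⟩, ?_, ?_⟩
    · rw [List.pairwise_replicate]
      exact Or.inr le_rfl
    · intro a ha c hc
      rw [List.eq_of_mem_replicate ha]
      rw [List.mem_filter] at hc
      have h1 := of_decide_eq_true hc.2
      exact h1.1.le
    · rw [List.pairwise_replicate]
      exact Or.inr le_rfl
    · intro a ha c hc
      rw [List.eq_of_mem_replicate hc]
      rcases List.mem_append.1 ha with ha | ha
      · rw [List.eq_of_mem_replicate ha]
        exact hst.le
      · rw [List.mem_filter] at ha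
        have h1 := of_decide_eq_true ha.2
        exact h1.2.le
  · rw [List.perm_iff_count]
    intro a
    rw [List.count_append, List.count_append, List.count_replicate, List.count_replicate]
    by_cases has : a = s
    · subst has
      have h0 : (ps.filter (fun u => decide (a < u ∧ u < t))).count a = 0 := by
        rw [List.count_eq_zero]
        intro hm
        rw [List.mem_filter] at hm
        exact absurd (of_decide_eq_true hm.2).1 (lt_irrefl _)
      rw [h0]
      simp [hst.ne']
    · by_cases hat : a = t
      · subst hat
        have h0 : (ps.filter (fun u => decide (s < u ∧ u < a))).count a = 0 := by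
          rw [List.count_eq_zero]
          intro hm
          rw [List.mem_filter] at hm
          exact absurd (of_decide_eq_true hm.2).2 (lt_irrefl _)
        rw [h0]
        simp [hst.ne]
      · have hs' : ¬ (s = a) := fun e => has e.symm
        have ht' : ¬ (t = a) := fun e => hat e.symm
        by_cases hin : s < a ∧ a < t
        · rw [List.count_filter (by simpa using hin)]
          simp [hs', ht']
        · have h1 : ps.count a = 0 := by
            rw [List.count_eq_zero]
            intro hm
            rcases hall a hm with h2 | h2 | h2
            · exact has h2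
            · exact hat h2
            · exact hin h2
          have h0 : (ps.filter (fun u => decide (s < u ∧ u < t))).count a = 0 := by
            rw [List.count_eq_zero]
            intro hm
            rw [List.mem_filter] at hm
            exact hin (of_decide_eq_true hm.2)
          rw [h0, h1]
          simp [hs', ht']

lemma nest {n : ℕ} {P : Fin n → Fin n → Prop} {F : Fin n → Prop} {i j : Fin n} (hP : P i j)
    {W : List (Fin n)} (hW : RedF P F W) : ∀ x : ℕ,
    RedF P F (List.replicate x i ++ W ++ List.replicate x j)
  | 0 => by simpa using hW
  | x + 1 => by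
    have h := RedF.pair hP (nest hP hW x)
    have h2 : List.replicate (x + 1) i ++ W ++ List.replicate (x + 1) j =
        i :: ((List.replicate x i ++ W ++ List.replicate x j) ++ [j]) := by
      rw [List.replicate_succ, List.replicate_succ']
      simp
    rw [h2]
    exact h

theorem std (hI : StI) (hT : StT) : StD := by
  intro n m b i j k l s t hd hs ht hkl w hw hall
  classical
  obtain ⟨ps, hps, rfl⟩ := mem_blocks_iff.1 hw
  obtain ⟨hij, hik, hil, hjk, hjl, hkl'⟩ := hd
  have hbs : b s = i := (hs s).2 rfl
  have hbt : b t = j := (ht t).2 rfl
  apply (hI (Fin n) (Mt i j k l) (Fr i j k l)).2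
  have hnf : ∀ c, ¬ Fr i j k l c ↔ (c = i ∨ c = j ∨ c = k ∨ c = l) := by
    intro c
    unfold Fr
    tauto
  -- counts of the filtered word
  have hcnt : ∀ c, ¬ Fr i j k l c → (List.filter (fun c => decide (¬ Fr i j k l c))
      (List.map b ps)).count c = (List.map b ps).count c := by
    intro c hc
    exact List.count_filter (by simpa using hc)
  rw [List.filter_map] at hcnt ⊢
  set qs : List (Fin m) := List.filter ((fun c => decide (¬ Fr i j k l c)) ∘ b) ps with hqs
  have hqp : qs.Pairwise (· ≤ ·) := hps.filter _
  have hmem : ∀ u ∈ qs, ¬ Fr i j k l (b u) := by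
    intro u hu
    rw [hqs, List.mem_filter] at hu
    exact of_decide_eq_true hu.2
  have hlet : ∀ u ∈ qs, u = s ∨ u = t ∨ (s < u ∧ u < t) := by
    intro u hu
    rcases (hnf _).1 (hmem u hu) with h | h | h | h
    · exact Or.inl ((hs u).1 h)
    · exact Or.inr (Or.inl ((ht u).1 h))
    · exact Or.inr (Or.inr (hkl u (Or.inl h)))
    · exact Or.inr (Or.inr (hkl u (Or.inr h)))
  have heq : ∀ c d, ¬ Fr i j k l c → ¬ Fr i j k l d →
      (List.map b qs).count c = (List.map b qs).count d := by
    intro c d hc hd
    rw [hcnt c hc, hcnt d hd]
    exact hall c d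
  have fi : ¬ Fr i j k l i := (hnf i).2 (Or.inl rfl)
  have fj : ¬ Fr i j k l j := (hnf j).2 (Or.inr (Or.inl rfl))
  have fk : ¬ Fr i j k l k := (hnf k).2 (Or.inr (Or.inr (Or.inl rfl)))
  have fl : ¬ Fr i j k l l := (hnf l).2 (Or.inr (Or.inr (Or.inr rfl)))
  by_cases hemp : ∃ u ∈ qs, s < u ∧ u < t
  · obtain ⟨u0, hu0, h1, h2⟩ := hemp
    have hst : s < t := h1.trans h2
    have hsp := split_sorted qs hqp s t hst hlet
    set M : List (Fin m) := qs.filter (fun u => decide (s < u ∧ u < t)) with hM
    have hMl : ∀ u ∈ M, b u = k ∨ b u = l := by
      intro u hu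
      rw [hM, List.mem_filter] at hu
      have h3 := of_decide_eq_true hu.2
      rcases (hnf _).1 (hmem u hu.1) with h | h | h | h
      · have := (hs u).1 h
        subst this
        exact absurd h3.1 (lt_irrefl _)
      · have := (ht u).1 h
        subst this
        exact absurd h3.2 (lt_irrefl _)
      · exact Or.inl h
      · exact Or.inr h
    have hmap : List.map b qs = List.replicate (qs.count s) i ++ List.map b M ++
        List.replicate (qs.count t) j := by
      conv_lhs => rw [hsp]
      rw [List.map_append, List.map_append, List.map_replicate, List.map_replicate, hbs, hbt]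
    have hM0 : ∀ c, c ≠ k → c ≠ l → (List.map b M).count c = 0 := by
      intro c hck hcl
      rw [List.count_eq_zero]
      intro hm
      obtain ⟨u, hu, rfl⟩ := List.mem_map.1 hm
      rcases hMl u hu with h | h
      · exact hck h
      · exact hcl h
    have ci : (List.map b qs).count i = qs.count s := by
      rw [hmap, List.count_append, List.count_append, hM0 i hik hil, List.count_replicate,
        List.count_replicate]
      simp [hij.symm]
    have cj : (List.map b qs).count j = qs.count t := by
      rw [hmap, List.count_append, List.count_append, hM0 j hjk hjl, List.count_replicate,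
        List.count_replicate]
      simp [hij]
    have ck : (List.map b qs).count k = (List.map b M).count k := by
      rw [hmap, List.count_append, List.count_append, List.count_replicate, List.count_replicate]
      simp [hik, hjk]
    have cl : (List.map b qs).count l = (List.map b M).count l := by
      rw [hmap, List.count_append, List.count_append, List.count_replicate, List.count_replicate]
      simp [hil, hjl]
    have hx : qs.count t = qs.count s := by
      rw [← ci, ← cj]
      exact heq j i fj fi
    rw [hmap, hx]
    apply nest (Or.inl ⟨rfl, rfl⟩)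
    refine hT n _ _ k l hkl' (Or.inr (Or.inr (Or.inl ⟨rfl, rfl⟩)))
      (Or.inr (Or.inr (Or.inr ⟨rfl, rfl⟩))) _ ?_ ?_
    · intro c hc
      obtain ⟨u, hu, rfl⟩ := List.mem_map.1 hc
      exact hMl u hu
    · rw [← ck, ← cl]
      exact heq k l fk fl
  · -- no letter `k`: all counts are zero
    have hk0 : (List.map b qs).count k = 0 := by
      rw [List.count_eq_zero]
      intro hm
      obtain ⟨u, hu, hbu⟩ := List.mem_map.1 hm
      exact hemp ⟨u, hu, hkl u (Or.inl hbu)⟩
    have hnil : List.map b qs = [] := by
      rw [List.eq_nil_iff_forall_not_mem]
      intro c hc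
      have hcf : ¬ Fr i j k l c := by
        obtain ⟨u, hu, rfl⟩ := List.mem_map.1 hc
        exact hmem u hu
      have h1 := heq c k hcf fk
      rw [hk0, List.count_eq_zero] at h1
      exact h1 hc
    rw [hnil]
    exact RedF.nil

end Pool.Agent.Helper96.BB
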